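import Pool.Agent.Y171.CE.Stm

/-!
Project CE: return counts of the walk modulo `f`, for polynomial matrices and in the finite field.
-/

set_option autoImplicit false

open Polynomial Matrix

namespace Pool.Agent.Y629.CE

open Pool.Agent.Y171.CE

theorem dg_one (p : ℕ) [Fact p.Prime] : dg (1 : SL2 (ZMod p)[X]) = 0 := by
  have h : dg (pw (X : (ZMod p)[X]) ([] : List (NilT p))) = dg (1 : SL2 (ZMod p)[X]) := rfl
  unfold dg
  apply Nat.le_zero.1
  apply Finset.sup_le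
  intro i _
  apply Finset.sup_le
  intro j _
  fin_cases i <;> fin_cases j <;> simp

theorem arith {p k n d N : ℕ} (hp : 2 ≤ p) (hk : k ≤ d) (hd : d ≤ 2 * n) (hkn : 3 * k ≤ 2 * n)
    (h : N * p ^ (3 * k) ≤ 8 * 4 ^ d * p ^ 3 * (p ^ (d + 2 * k) + p ^ (2 * d))) :
    N * p ^ (3 * k) ≤ 16 * 16 ^ n * p ^ 3 * p ^ (2 * n) * p ^ d := by
  have h1 : 4 ^ d ≤ 16 ^ n := by
    calc 4 ^ d ≤ 4 ^ (2 * n) := Nat.pow_le_pow_right (by norm_num) hd
      _ = 16 ^ n := by rw [pow_mul]; norm_num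
  have h2 : p ^ (d + 2 * k) ≤ p ^ (2 * n) * p ^ d := by
    rw [← pow_add]
    exact Nat.pow_le_pow_right (by omega) (by omega)
  have h3 : p ^ (2 * d) ≤ p ^ (2 * n) * p ^ d := by
    rw [← pow_add]
    exact Nat.pow_le_pow_right (by omega) (by omega)
  calc N * p ^ (3 * k) ≤ 8 * 4 ^ d * p ^ 3 * (p ^ (d + 2 * k) + p ^ (2 * d)) := h
    _ ≤ 8 * 16 ^ n * p ^ 3 * (p ^ (2 * n) * p ^ d + p ^ (2 * n) * p ^ d) := by gcongr
    _ = 16 * 16 ^ n * p ^ 3 * p ^ (2 * n) * p ^ d := by ring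

theorem retp (hDG : S_DG) (hPTW : S_PTW) (hCNT : S_CNT) : S_RETP := by
  classical
  intro p _ f k hf hk n hn
  have hp : 2 ≤ p := (Fact.out : p.Prime).two_le
  have hpos : 0 < p := by omega
  have : NeZero p := ⟨by omega⟩
  obtain ⟨hfin, -⟩ := (hCNT p f k hf hk (2 * n)).2 (by omega)
  set S : Finset (SL2 (ZMod p)[X]) := hfin.toFinset with hS
  have hmemS : ∀ γ, γ ∈ S ↔ γ ∈ cng f (2 * n) := fun γ => by rw [hS, Set.Finite.mem_toFinset]
  -- the count as a sum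
  set H : Finset (Fin (2 * n) → NilT p) := Finset.univ.filter (fun h => ∀ i j : Fin 2,
      f ∣ (pw (X : (ZMod p)[X]) (List.ofFn h)).1 i j - (1 : Matrix (Fin 2) (Fin 2) (ZMod p)[X]) i j) with hH
  have hT : Nat.card {h : Fin (2 * n) → NilT p // ∀ i j : Fin 2,
      f ∣ (pw (X : (ZMod p)[X]) (List.ofFn h)).1 i j - (1 : Matrix (Fin 2) (Fin 2) (ZMod p)[X]) i j} = H.card := by
    rw [Nat.card_eq_fintype_card, Fintype.card_subtype]
  rw [hT]
  have hmaps : ∀ h ∈ H, pw (X : (ZMod p)[X]) (List.ofFn h) ∈ S := by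
    intro h hh
    rw [hmemS]
    refine ⟨?_, ?_⟩
    · refine ((hDG p).2.2.2 (List.ofFn h)).trans ?_
      rw [List.length_ofFn]
    · rw [hH, Finset.mem_filter] at hh
      exact hh.2
  have hc : ∀ γ, (H.filter (fun h => pw (X : (ZMod p)[X]) (List.ofFn h) = γ)).card ≤
      Nat.card {h : Fin (2 * n) → NilT p // pw (X : (ZMod p)[X]) (List.ofFn h) = γ} := by
    intro γ
    rw [Nat.card_eq_fintype_card, Fintype.card_subtype]
    apply Finset.card_le_card
    intro h hh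
    rw [Finset.mem_filter] at hh ⊢
    exact ⟨Finset.mem_univ _, hh.2⟩
  have hcard : H.card = ∑ γ ∈ S, (H.filter (fun h => pw (X : (ZMod p)[X]) (List.ofFn h) = γ)).card :=
    Finset.card_eq_sum_card_fiberwise hmaps
  have hpR : (0 : ℝ) < p := by exact_mod_cast hpos
  have h1 : (H.card : ℝ) ≤ ∑ γ ∈ S, ((4 * p : ℝ) ^ (2 * n)) * ((p : ℝ) ^ dg γ)⁻¹ := by
    rw [hcard]
    push_cast
    apply Finset.sum_le_sum
    intro γ _
    rw [← div_eq_mul_inv, le_div_iff₀ (by positivity)]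
    have h2 := (Nat.mul_le_mul_right (p ^ dg γ) (hc γ)).trans (hPTW p (2 * n) γ)
    exact_mod_cast h2
  rw [← Finset.mul_sum] at h1
  -- grouping
  have hdgS : ∀ γ ∈ S, dg γ ∈ Finset.range (2 * n + 1) := by
    intro γ hγ
    rw [Finset.mem_range]
    have := ((hmemS γ).1 hγ).1
    omega
  have h2 : ∑ γ ∈ S, ((p : ℝ) ^ dg γ)⁻¹ =
      ∑ d ∈ Finset.range (2 * n + 1), ((S.filter (fun γ => dg γ = d)).card : ℝ) * ((p : ℝ) ^ d)⁻¹ := by
    rw [← Finset.sum_fiberwise_of_maps_to hdgS]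
    apply Finset.sum_congr rfl
    intro d _
    rw [Finset.sum_congr rfl (g := fun _ => ((p : ℝ) ^ d)⁻¹)]
    · rw [Finset.sum_const, nsmul_eq_mul]
    · intro γ hγ
      rw [(Finset.mem_filter.1 hγ).2]
  have h3 : ∀ d ∈ Finset.range (2 * n + 1),
      ((S.filter (fun γ => dg γ = d)).card : ℝ) * ((p : ℝ) ^ d)⁻¹ * (p : ℝ) ^ (3 * k) ≤
        16 * 16 ^ n * (p : ℝ) ^ 3 * (p : ℝ) ^ (2 * n) := by
    intro d hd
    rw [Finset.mem_range] at hd
    have key : (S.filter (fun γ => dg γ = d)).card * p ^ (3 * k) ≤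
        16 * 16 ^ n * p ^ 3 * p ^ (2 * n) * p ^ d := by
      rcases Nat.lt_or_ge d k with hdk | hdk
      · have h4 : (S.filter (fun γ => dg γ = d)).card ≤ 1 := by
          apply Finset.card_le_one.2
          intro a ha b hb
          rw [Finset.mem_filter, hmemS] at ha hb
          have ha1 := (hCNT p f k hf hk d).1 hdk a ⟨ha.2.le, ha.1.2⟩
          have hb1 := (hCNT p f k hf hk d).1 hdk b ⟨hb.2.le, hb.1.2⟩
          rw [ha1, hb1]
        have h5 : p ^ (3 * k) ≤ p ^ (2 * n) := Nat.pow_le_pow_right hpos hn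
        have h6 : 1 ≤ 16 * 16 ^ n * p ^ 3 := Nat.one_le_iff_ne_zero.2 (by positivity)
        have h7 : 1 ≤ p ^ d := Nat.one_le_iff_ne_zero.2 (by positivity)
        calc (S.filter (fun γ => dg γ = d)).card * p ^ (3 * k) ≤ 1 * p ^ (2 * n) * 1 := by
              rw [mul_one]
              exact Nat.mul_le_mul h4 h5
          _ ≤ 16 * 16 ^ n * p ^ 3 * p ^ (2 * n) * p ^ d := by
              gcongr
      · obtain ⟨hfd, hcd⟩ := (hCNT p f k hf hk d).2 hdk
        have h4 : (S.filter (fun γ => dg γ = d)).card ≤ (cng f d).ncard := by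
          rw [← Set.ncard_coe_finset]
          apply Set.ncard_le_ncard _ hfd
          intro γ hγ
          rw [Finset.mem_coe, Finset.mem_filter, hmemS] at hγ
          exact ⟨hγ.2.le, hγ.1.2⟩
        exact arith hp hdk (by omega) hn ((Nat.mul_le_mul_right _ h4).trans hcd)
    have key' : ((S.filter (fun γ => dg γ = d)).card : ℝ) * (p : ℝ) ^ (3 * k) ≤
        16 * 16 ^ n * (p : ℝ) ^ 3 * (p : ℝ) ^ (2 * n) * (p : ℝ) ^ d := by exact_mod_cast key
    have hpd : (0 : ℝ) < (p : ℝ) ^ d := by positivity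
    calc ((S.filter (fun γ => dg γ = d)).card : ℝ) * ((p : ℝ) ^ d)⁻¹ * (p : ℝ) ^ (3 * k)
        = (((S.filter (fun γ => dg γ = d)).card : ℝ) * (p : ℝ) ^ (3 * k)) / (p : ℝ) ^ d := by
          field_simp
      _ ≤ 16 * 16 ^ n * (p : ℝ) ^ 3 * (p : ℝ) ^ (2 * n) := by
          rw [div_le_iff₀ hpd]
          exact key'
  have h4 : (∑ γ ∈ S, ((p : ℝ) ^ dg γ)⁻¹) * (p : ℝ) ^ (3 * k) ≤
      (2 * n + 1) * (16 * 16 ^ n * (p : ℝ) ^ 3 * (p : ℝ) ^ (2 * n)) := by
    rw [h2, Finset.sum_mul]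
    refine (Finset.sum_le_sum h3).trans ?_
    rw [Finset.sum_const, Finset.card_range, nsmul_eq_mul]
    push_cast
    exact le_rfl
  have h5 : (H.card : ℝ) * (p : ℝ) ^ (3 * k) ≤
      17 * (2 * n + 1) * 256 ^ n * (p : ℝ) ^ 3 * (p : ℝ) ^ (4 * n) := by
    calc (H.card : ℝ) * (p : ℝ) ^ (3 * k)
        ≤ ((4 * p : ℝ) ^ (2 * n)) * (∑ γ ∈ S, ((p : ℝ) ^ dg γ)⁻¹) * (p : ℝ) ^ (3 * k) := by
          gcongr
      _ = ((4 * p : ℝ) ^ (2 * n)) * ((∑ γ ∈ S, ((p : ℝ) ^ dg γ)⁻¹) * (p : ℝ) ^ (3 * k)) := by ring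
      _ ≤ ((4 * p : ℝ) ^ (2 * n)) * ((2 * n + 1) * (16 * 16 ^ n * (p : ℝ) ^ 3 * (p : ℝ) ^ (2 * n))) := by
          gcongr
      _ = 16 * ((2 * n + 1) * 256 ^ n * (p : ℝ) ^ 3 * (p : ℝ) ^ (4 * n)) := by
          have e1 : (4 * p : ℝ) ^ (2 * n) = 16 ^ n * (p : ℝ) ^ (2 * n) := by
            rw [mul_pow, pow_mul (4 : ℝ)]
            norm_num
          have e2 : (256 : ℝ) ^ n = 16 ^ n * 16 ^ n := by
            rw [← mul_pow]
            norm_num
          have e3 : (p : ℝ) ^ (4 * n) = (p : ℝ) ^ (2 * n) * (p : ℝ) ^ (2 * n) := by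
            rw [← pow_add]
            congr 1
            ring
          rw [e1, e2, e3]
          ring
      _ ≤ 17 * ((2 * n + 1) * 256 ^ n * (p : ℝ) ^ 3 * (p : ℝ) ^ (4 * n)) := by
          apply mul_le_mul_of_nonneg_right (by norm_num)
          positivity
      _ = 17 * (2 * n + 1) * 256 ^ n * (p : ℝ) ^ 3 * (p : ℝ) ^ (4 * n) := by ring
  exact_mod_cast h5

theorem st_map {p : ℕ} [Fact p.Prime] {F : Type} [Field F] [Algebra (ZMod p) F] (x : F) (N : NilT p) :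
    Matrix.SpecialLinearGroup.map (aeval x : (ZMod p)[X] →ₐ[ZMod p] F).toRingHom (st (X : (ZMod p)[X]) N) =
      st x N := by
  apply Subtype.ext
  ext i j
  change (aeval x) ((st (X : (ZMod p)[X]) N).1 i j) = (st x N).1 i j
  have hC : ∀ a : ZMod p, aeval x (algebraMap (ZMod p) (ZMod p)[X] a) = algebraMap (ZMod p) F a :=
    fun a => (aeval x).commutes a
  fin_cases i <;> fin_cases j
  · change aeval x (1 + X * algebraMap (ZMod p) (ZMod p)[X] N.1.1) = 1 + x * algebraMap (ZMod p) F N.1.1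
    rw [map_add, map_mul, map_one, aeval_X, hC]
  · change aeval x (X * algebraMap (ZMod p) (ZMod p)[X] N.1.2.1) = x * algebraMap (ZMod p) F N.1.2.1
    rw [map_mul, aeval_X, hC]
  · change aeval x (X * algebraMap (ZMod p) (ZMod p)[X] N.1.2.2) = x * algebraMap (ZMod p) F N.1.2.2
    rw [map_mul, aeval_X, hC]
  · change aeval x (1 - X * algebraMap (ZMod p) (ZMod p)[X] N.1.1) = 1 - x * algebraMap (ZMod p) F N.1.1
    rw [map_sub, map_mul, map_one, aeval_X, hC]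

theorem pw_map {p : ℕ} [Fact p.Prime] {F : Type} [Field F] [Algebra (ZMod p) F] (x : F)
    (l : List (NilT p)) :
    Matrix.SpecialLinearGroup.map (aeval x : (ZMod p)[X] →ₐ[ZMod p] F).toRingHom (pw (X : (ZMod p)[X]) l) =
      pw x l := by
  unfold pw
  rw [map_list_prod, List.map_map]
  congr 1
  apply List.map_congr_left
  intro N _
  exact st_map x N

theorem retq (hR : S_RETP) : S_RETQ := by
  classical
  intro p _ k F _ _ _ _ x hg n hn
  obtain ⟨f, hfk, hf⟩ := hg.poly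
  have : NeZero p := ⟨(Fact.out : p.Prime).ne_zero⟩
  refine le_trans (Nat.mul_le_mul_right _ ?_) (hR p f k hfk hg.one_le n hn)
  rw [Nat.card_eq_fintype_card, Nat.card_eq_fintype_card]
  apply Fintype.card_subtype_mono
  intro h hh i j
  have h1 : (aeval x) ((pw (X : (ZMod p)[X]) (List.ofFn h)).1 i j) = (pw x (List.ofFn h)).1 i j := by
    rw [← pw_map x (List.ofFn h)]
    rfl
  change pw x (List.ofFn h) = 1 at hh
  rw [← hf, map_sub, h1, hh]
  by_cases hij : i = j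
  · subst hij
    simp
  · simp [hij]

end Pool.Agent.Y629.CE
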